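import Pool.Agent.Helper47.FLG.Alg2

/-!
# Project FLG (MP_c98eff_gt): packet NV1 (null 4-spaces)
-/

namespace Pool.Agent.Helper47.FLG.NV1aux

open Finset Pool.Agent.Helper47.RFn Pool.Agent.Helper47.FLG

variable {n : ℕ}

theorem ufr0 (e : Fin 4 → Fin n → ℝ) (a b c d s t : ℝ) : ufr e a b c d s t 0 = lc e a b c d := rfl
theorem ufr1 (e : Fin 4 → Fin n → ℝ) (a b c d s t : ℝ) : ufr e a b c d s t 1 = lc e (-b) a (-d) c := rfl
theorem ufr2 (e : Fin 4 → Fin n → ℝ) (a b c d s t : ℝ) : ufr e a b c d s t 2 =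
    lc e (-(s * c + t * d)) (s * d - t * c) (s * a + t * b) (t * a - s * b) := rfl
theorem ufr3 (e : Fin 4 → Fin n → ℝ) (a b c d s t : ℝ) : ufr e a b c d s t 3 =
    lc e (-(s * d - t * c)) (-(s * c + t * d)) (-(t * a - s * b)) (s * a + t * b) := rfl

/-- the design, nonnegativity and vanishing for the first frame -/
theorem key0 (hDES : G_DES) (P : (Fin 4 → Fin n → ℝ) → Prop)
    (hPu : ∀ f, P f → ∀ a b c d s t : ℝ, a ^ 2 + b ^ 2 + c ^ 2 + d ^ 2 = 1 → s ^ 2 + t ^ 2 = 1 → P (ufr f a b c d s t))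
    (S : T4 n) (hS : IsCurv S)
    (hnn : ∀ f, P f → 0 ≤ Dj S (f 0) (f 1) (f 2) ∧ 0 ≤ Dj S (f 1) (f 0) (f 3) ∧ 0 ≤ Dj S (f 0) (f 1) (f 3))
    (e : Fin 4 → Fin n → ℝ) (he : P e) (v : ℝ) (hv : v ^ 2 = 1 / 2) :
    0 ≤ qf S (cv (e 0) (e 1)) (cv (e 2) (e 3)) ∧ (qf S (cv (e 0) (e 1)) (cv (e 2) (e 3)) = 0 →
      Dj S (lc e v 0 v 0) (lc e 0 v 0 v) (lc e (-v) 0 v 0) = 0 ∧
      Dj S (lc e 0 v 0 v) (lc e v 0 v 0) (lc e 0 (-v) 0 v) = 0 ∧
      Dj S (lc e v 0 v 0) (lc e 0 v 0 v) (lc e 0 (-v) 0 v) = 0) := by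
  have h1 := hnn _ (hPu e he v 0 v 0 1 0 (by linarith) (by norm_num))
  have h2 := hnn _ (hPu e he v 0 (-v) 0 1 0 (by linarith [neg_sq v]) (by norm_num))
  have h3 := hnn _ (hPu e he v 0 0 v 0 1 (by linarith) (by norm_num))
  have h4 := hnn _ (hPu e he v 0 0 (-v) 0 1 (by linarith [neg_sq v]) (by norm_num))
  simp only [ufr0, ufr1, ufr2, ufr3] at h1 h2 h3 h4
  have hd := hDES n e S v hv hS
  simp only [one_mul, zero_mul, mul_zero, neg_zero, add_zero, zero_add, sub_zero, neg_neg] at h1 h2 h3 h4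
  obtain ⟨h11, h12, h13⟩ := h1
  obtain ⟨h21, h22, h23⟩ := h2
  obtain ⟨h31, h32, h33⟩ := h3
  obtain ⟨h41, h42, h43⟩ := h4
  refine ⟨by linarith, fun h0 => ?_⟩
  rw [h0, mul_zero] at hd
  refine ⟨by linarith, by linarith, by linarith⟩

theorem key1 (hU2 : G_U2) (hDES : G_DES) (P : (Fin 4 → Fin n → ℝ) → Prop) (hPo : ∀ f, P f → ON f)
    (hPu : ∀ f, P f → ∀ a b c d s t : ℝ, a ^ 2 + b ^ 2 + c ^ 2 + d ^ 2 = 1 → s ^ 2 + t ^ 2 = 1 → P (ufr f a b c d s t))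
    (S : T4 n) (hS : IsCurv S)
    (hnn : ∀ f, P f → 0 ≤ Dj S (f 0) (f 1) (f 2) ∧ 0 ≤ Dj S (f 1) (f 0) (f 3) ∧ 0 ≤ Dj S (f 0) (f 1) (f 3))
    (e : Fin 4 → Fin n → ℝ) (he : P e) :
    0 ≤ qf S (cv (e 0) (e 1)) (cv (e 2) (e 3)) ∧ (qf S (cv (e 0) (e 1)) (cv (e 2) (e 3)) = 0 →
      Dj S (e 0) (e 1) (e 2) = 0 ∧ Dj S (e 1) (e 0) (e 3) = 0 ∧ Dj S (e 0) (e 1) (e 3) = 0) := by
  obtain ⟨v, hv⟩ : ∃ v : ℝ, v ^ 2 = 1 / 2 := ⟨Real.sqrt (1 / 2), Real.sq_sqrt (by norm_num)⟩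
  have hvv : v * v = 1 / 2 := by rw [← hv]; ring
  refine ⟨(key0 hDES P hPu S hS hnn e he v hv).1, fun h0 => ?_⟩
  have hE : v ^ 2 + 0 ^ 2 + (-v) ^ 2 + 0 ^ 2 = 1 := by linarith [neg_sq v]
  have hE2 : (1 : ℝ) ^ 2 + 0 ^ 2 = 1 := by norm_num
  have hP' := hPu e he v 0 (-v) 0 1 0 hE hE2
  have hq := (hU2 n e v 0 (-v) 0 1 0 (hPo e he) hE hE2).2 S hS
  have := (key0 hDES P hPu S hS hnn _ hP' v hv).2 (hq.trans h0)
  have e0 : lc (ufr e v 0 (-v) 0 1 0) v 0 v 0 = e 0 := by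
    funext i
    simp only [lc, ufr0, ufr1, ufr2, ufr3]
    linear_combination (2 * e 0 i) * hvv
  have e1 : lc (ufr e v 0 (-v) 0 1 0) 0 v 0 v = e 1 := by
    funext i
    simp only [lc, ufr0, ufr1, ufr2, ufr3]
    linear_combination (2 * e 1 i) * hvv
  have e2 : lc (ufr e v 0 (-v) 0 1 0) (-v) 0 v 0 = e 2 := by
    funext i
    simp only [lc, ufr0, ufr1, ufr2, ufr3]
    linear_combination (2 * e 2 i) * hvv
  have e3 : lc (ufr e v 0 (-v) 0 1 0) 0 (-v) 0 v = e 3 := by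
    funext i
    simp only [lc, ufr0, ufr1, ufr2, ufr3]
    linear_combination (2 * e 3 i) * hvv
  rw [e0, e1, e2, e3] at this
  exact this

/-- change of basis of a plane -/
theorem K2bas (hR4T : G_R4T) (R : T4 n) (hR : IsCurv R) (u w : Fin n → ℝ) (a b c d : ℝ) :
    K2 R (fun i => a * u i + b * w i) (fun i => c * u i + d * w i) = (a * d - b * c) ^ 2 * K2 R u w := by
  obtain ⟨hlin, -, hsym, hK, -⟩ := hR4T n
  have z1 : ∀ x p q, R4 R x x p q = 0 := fun x p q => by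
    have := (hsym R hR x x p q).1; linarith
  have z2 : ∀ x p q, R4 R p q x x = 0 := fun x p q => by
    have := (hsym R hR p q x x).2.1; linarith
  rw [hK, hK]
  rw [(hlin R u w (fun i => c * u i + d * w i) (fun i => a * u i + b * w i) (fun i => c * u i + d * w i) a b).1]
  rw [(hlin R u w u (fun i => a * u i + b * w i) (fun i => c * u i + d * w i) c d).2.1]
  rw [(hlin R u w w (fun i => a * u i + b * w i) (fun i => c * u i + d * w i) c d).2.1]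
  rw [z1 u, z1 w]
  rw [(hlin R u w u w (fun i => c * u i + d * w i) a b).2.2.1]
  rw [(hlin R u w w u (fun i => c * u i + d * w i) a b).2.2.1]
  rw [(hlin R u w u w u c d).2.2.2, (hlin R u w u w w c d).2.2.2, (hlin R u w w u u c d).2.2.2,
    (hlin R u w w u w c d).2.2.2]
  rw [z2 u, z2 w, z2 u, z2 w, (hsym R hR w u u w).1, (hsym R hR w u w u).1, (hsym R hR u w w u).2.1]
  ring

theorem wd_on (hR4T : G_R4T) {m : ℕ} (f : Fin m → Fin n → ℝ) (hf : ON f) (i j : Fin m) (hij : i ≠ j) :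
    wd (f i) (f j) = 1 := by
  obtain ⟨-, -, -, -, -, -, -, -, hn, -⟩ := hR4T n
  unfold wd
  rw [hn, hn, hf i i, hf j j, hf i j]
  simp [hij]

theorem Dj_nn (hR4T : G_R4T) (R : T4 n) (fg : FG R) (f : Fin 4 → Fin n → ℝ) (hf : ON f) (i j k : Fin 4) (hij : i ≠ j)
    (hik : i ≠ k) : 0 ≤ Dj R (f i) (f j) (f k) := by
  have := fg.2 (f i) (f j) (f k)
  unfold fl at this
  rw [wd_on hR4T f hf j i hij.symm, wd_on hR4T f hf k i hik.symm] at this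
  unfold Dj
  linarith

theorem base (hU2 : G_U2) (hDES : G_DES) (hR4T : G_R4T) (R : T4 n) (fg : FG R) (e : Fin 4 → Fin n → ℝ) (he : ON e)
    (h0 : qf R (cv (e 0) (e 1)) (cv (e 2) (e 3)) = 0) :
    4 * K2 R (e 2) (e 0) = K2 R (e 1) (e 0) ∧ 4 * K2 R (e 3) (e 1) = K2 R (e 0) (e 1) ∧
      4 * K2 R (e 3) (e 0) = K2 R (e 1) (e 0) := by
  have := (key1 hU2 hDES (fun f => ON f ∧ qf R (cv (f 0) (f 1)) (cv (f 2) (f 3)) = 0) (fun f hf => hf.1)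
    (fun f hf a b c d s t h1 h2 => ⟨(hU2 n f a b c d s t hf.1 h1 h2).1,
      ((hU2 n f a b c d s t hf.1 h1 h2).2 R fg.1).trans hf.2⟩) R fg.1
    (fun f hf => ⟨Dj_nn hR4T R fg f hf.1 0 1 2 (by decide) (by decide),
      Dj_nn hR4T R fg f hf.1 1 0 3 (by decide) (by decide), Dj_nn hR4T R fg f hf.1 0 1 3 (by decide) (by decide)⟩)
    e ⟨he, h0⟩).2 h0
  unfold Dj at this
  obtain ⟨h1, h2, h3⟩ := this
  exact ⟨by linarith, by linarith, by linarith⟩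

/-- Ac for the triples of a null frame -/
theorem acs (hU2 : G_U2) (hDES : G_DES) (hR4T : G_R4T) (R : T4 n) (f : Fin 4 → Fin n → ℝ) (hf : NV R f) :
    Ac R (f 0) (f 1) (f 2) ∧ Ac R (f 1) (f 0) (f 3) ∧ Ac R (f 0) (f 1) (f 3) := by
  obtain ⟨fg, on, k02, nul⟩ := hf
  obtain ⟨h1, h2, h3⟩ := base hU2 hDES hR4T R fg f on nul
  obtain ⟨-, -, -, -, hsy, -, -, -, hn, -⟩ := hR4T n
  have hs := hsy R fg.1
  rw [hs (f 2) (f 0)] at h1
  rw [hs (f 1) (f 0)] at h1 h3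
  rw [hs (f 3) (f 1)] at h2
  rw [hs (f 3) (f 0)] at h3
  have hnr : ∀ i, nrm (f i) = 1 := fun i => by rw [hn, on i i]; simp
  have hdt : ∀ i j, i ≠ j → dot (f i) (f j) = 0 := fun i j hij => by rw [on i j]; simp [hij]
  refine ⟨⟨fg, hnr 0, hnr 1, hnr 2, hdt 0 1 (by decide), hdt 0 2 (by decide), hdt 1 2 (by decide), by linarith, k02⟩,
    ⟨fg, hnr 1, hnr 0, hnr 3, hdt 1 0 (by decide), hdt 1 3 (by decide), hdt 0 3 (by decide), ?_, by linarith⟩,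
    ⟨fg, hnr 0, hnr 1, hnr 3, hdt 0 1 (by decide), hdt 0 3 (by decide), hdt 1 3 (by decide), by linarith, by linarith⟩⟩
  rw [hs (f 1) (f 0)]; linarith

theorem polar (a b : ℝ) : ∃ r x y : ℝ, x ^ 2 + y ^ 2 = 1 ∧ a = r * x ∧ b = r * y ∧ r ^ 2 = a ^ 2 + b ^ 2 := by
  by_cases h : a ^ 2 + b ^ 2 = 0
  · have ha : a = 0 := by nlinarith [sq_nonneg a, sq_nonneg b]
    have hb : b = 0 := by nlinarith [sq_nonneg a, sq_nonneg b]
    exact ⟨0, 1, 0, by norm_num, by rw [ha]; ring, by rw [hb]; ring, by rw [ha, hb]; ring⟩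
  · have hp : 0 < a ^ 2 + b ^ 2 := lt_of_le_of_ne (by positivity) (Ne.symm h)
    have hs := Real.sqrt_pos.mpr hp
    have hq := Real.sq_sqrt hp.le
    refine ⟨Real.sqrt (a ^ 2 + b ^ 2), a / Real.sqrt (a ^ 2 + b ^ 2), b / Real.sqrt (a ^ 2 + b ^ 2), ?_, ?_, ?_, hq⟩
    · rw [div_pow, div_pow, hq]; field_simp
    · field_simp
    · field_simp

/-- `H = 4` and `K = 1` for every unitary frame -/
theorem ufrNV (hU2 : G_U2) (hDES : G_DES) (hR4T : G_R4T) (R : T4 n) (e : Fin 4 → Fin n → ℝ) (he : NV R e)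
    (a b c d s t : ℝ) (h1 : a ^ 2 + b ^ 2 + c ^ 2 + d ^ 2 = 1) (h2 : s ^ 2 + t ^ 2 = 1) :
    NV R (ufr e a b c d s t) := by
  obtain ⟨fg, on, k02, nul⟩ := he
  have hsy := (hR4T n).2.2.2.2.1 R fg.1
  obtain ⟨al, a', b', hab, ha, hb, hal⟩ := polar a b
  obtain ⟨ga, c', d', hcd, hc, hd, hga⟩ := polar c d
  have hE2 : (1 : ℝ) ^ 2 + 0 ^ 2 = 1 := by norm_num
  -- the frame `g`
  obtain ⟨s', hs'⟩ : ∃ s', s' = c' * a' - d' * b' := ⟨_, rfl⟩
  obtain ⟨t', ht'⟩ : ∃ t', t' = c' * b' + d' * a' := ⟨_, rfl⟩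
  have hst : s' ^ 2 + t' ^ 2 = 1 := by
    rw [hs', ht']; linear_combination (c' ^ 2 + d' ^ 2) * hab + hcd
  have hab0 : a' ^ 2 + b' ^ 2 + 0 ^ 2 + 0 ^ 2 = 1 := by linarith
  have gU := hU2 n e a' b' 0 0 s' t' on hab0 hst
  obtain ⟨g, hg⟩ : ∃ g, g = ufr e a' b' 0 0 s' t' := ⟨_, rfl⟩
  rw [← hg] at gU
  have g0 : g 0 = fun i => a' * e 0 i + b' * e 1 i := by
    rw [hg]; funext i; simp only [ufr0, lc]; ring
  have g1 : g 1 = fun i => (-b') * e 0 i + a' * e 1 i := by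
    rw [hg]; funext i; simp only [ufr1, lc]; ring
  have g2 : g 2 = fun i => c' * e 2 i + d' * e 3 i := by
    rw [hg]; funext i; simp only [ufr2, lc, hs', ht']
    linear_combination (c' * e 2 i + d' * e 3 i) * hab
  have g3 : g 3 = fun i => (-d') * e 2 i + c' * e 3 i := by
    rw [hg]; funext i; simp only [ufr3, lc, hs', ht']
    linear_combination (-d' * e 2 i + c' * e 3 i) * hab
  have gnul := (gU.2 R fg.1).trans nul
  have bg := (base hU2 hDES hR4T R fg g gU.1 gnul).1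
  have be := (base hU2 hDES hR4T R fg e on nul).1
  have Kg : K2 R (g 1) (g 0) = 4 := by
    rw [g0, g1, K2bas hR4T R fg.1, hsy (e 0) (e 1), ← be, hsy (e 2) (e 0), k02]
    have : (-b' * b' - a' * a') ^ 2 = 1 := by
      have : -b' * b' - a' * a' = -1 := by linarith
      rw [this]; norm_num
    rw [this]; norm_num
  have Kg2 : K2 R (g 0) (g 2) = 1 := by rw [hsy]; linarith
  -- the frame `h`
  have hE3 : al ^ 2 + 0 ^ 2 + ga ^ 2 + 0 ^ 2 = 1 := by linarith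
  have kU := hU2 n g al 0 ga 0 1 0 gU.1 hE3 hE2
  obtain ⟨k, hk⟩ : ∃ k, k = ufr g al 0 ga 0 1 0 := ⟨_, rfl⟩
  rw [← hk] at kU
  have k0 : k 0 = fun i => al * g 0 i + ga * g 2 i := by
    rw [hk]; funext i; simp only [ufr0, lc]; ring
  have k2 : k 2 = fun i => (-ga) * g 0 i + al * g 2 i := by
    rw [hk]; funext i; simp only [ufr2, lc]; ring
  have k0' : k 0 = ufr e a b c d s t 0 := by
    rw [k0, g0, g2]; funext i; simp only [ufr0, lc, ha, hb, hc, hd]; ring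
  have k1' : k 1 = ufr e a b c d s t 1 := by
    rw [hk]; funext i; simp only [ufr1, lc, g1, g3, ha, hb, hc, hd]; ring
  have knul := (kU.2 R fg.1).trans gnul
  have bk := (base hU2 hDES hR4T R fg k kU.1 knul).1
  have Kk : K2 R (k 2) (k 0) = 1 := by
    rw [k0, k2, K2bas hR4T R fg.1, Kg2]
    have : -ga * ga - al * al = -1 := by linarith
    rw [this]; norm_num
  rw [Kk, k0', k1'] at bk
  have fU := hU2 n e a b c d s t on h1 h2
  have fnul := (fU.2 R fg.1).trans nul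
  have bf := (base hU2 hDES hR4T R fg _ fU.1 fnul).1
  refine ⟨fg, fU.1, ?_, fnul⟩
  rw [hsy]; linarith

end Pool.Agent.Helper47.FLG.NV1aux

namespace Pool.Agent.Helper47.FLG

open Finset Pool.Agent.Helper47.RFn NV1aux

theorem g_NV1 (hU2 : G_U2) (hDES : G_DES) (hEQF : G_EQF) (hR4T : G_R4T) (hCL : Goal_CL) : G_NV1 := by
  intro n _ R e he
  have hAc := acs hU2 hDES hR4T R e he
  have hQ : IsCurv (Q R) := (hCL n).1 R he.fg.1
  have hk := key1 hU2 hDES (fun f => NV R f) (fun f hf => hf.on)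
    (fun f hf a b c d s t h1 h2 => ufrNV hU2 hDES hR4T R f hf a b c d s t h1 h2) (Q R) hQ
    (fun f hf => ⟨(hEQF n R _ _ _ (acs hU2 hDES hR4T R f hf).1).1, (hEQF n R _ _ _ (acs hU2 hDES hR4T R f hf).2.1).1,
      (hEQF n R _ _ _ (acs hU2 hDES hR4T R f hf).2.2).1⟩) e he
  exact ⟨hAc.1, hk.1, fun h0 => (hk.2 h0).1, fun a b c d s t h1 h2 => ufrNV hU2 hDES hR4T R e he a b c d s t h1 h2⟩

end Pool.Agent.Helper47.FLG
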