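import Pool.Agent.Helper47.FLG.Fun
import Pool.Agent.Helper60.RFn.FJS

/-!
# Project FLG (MP_c98eff_gt): packet GIN (the integral of the Pfaffian is constant)
-/

namespace Pool.Agent.Helper47.FLG.GINaux

open Finset Pool.Agent.Helper47.RFn Pool.Agent.Helper73.RFn Pool.Agent.Helper60.RFn.FJS

variable {n : ℕ} {I : Set ℝ} {A θ : ℝ → MF n}

theorem cl_prod {ι : Type} (s : Finset ι) (f : ι → ℝ → EE n → ℝ)
    (h : ∀ a ∈ s, Cl I A θ (f a)) : Cl I A θ (fun t x => ∏ a ∈ s, f a t x) := by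
  classical
  induction s using Finset.induction_on with
  | empty => simpa using Cl.const (I := I) (A := A) (θ := θ) 1
  | insert a s ha ih =>
    have h1 := Cl.mul _ _ (h a (mem_insert_self a s)) (ih fun b hb => h b (mem_insert_of_mem hb))
    convert h1 using 3 with t x
    exact prod_insert ha

theorem cl_Rf (a b c d : Fin (n + 1)) : Cl I A θ (fun t x => Rf (A t) (θ t) a b c d x) :=
  Cl.neg _ (cl_Kf a b c d)

theorem cl_det : Cl I A θ (fun t x => (gOf (θ t) x).det) := by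
  have h : (fun t x => (gOf (θ t) x).det) = fun t (x : EE n) => ∑ σ : Equiv.Perm (Fin (n + 1)),
      ((Equiv.Perm.sign σ : ℤ) : ℝ) * ∏ i, ∑ a, θ t x (σ i) a * θ t x i a := by
    funext t x
    rw [Matrix.det_apply']
    rfl
  rw [h]
  exact Cl.sum _ _ fun σ _ => Cl.mul _ _ (Cl.const _) (cl_prod _ _ fun i _ =>
    Cl.sum _ _ fun a _ => Cl.mul _ _ (Cl.th _ _) (Cl.th _ _))

theorem cl_pff {m : ℕ} {I : Set ℝ} {A θ : ℝ → MF (2 * m)} : Cl I A θ (fun t x => pff (A t) (θ t) x) := by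
  have h : (fun t x => pff (A t) (θ t) x) = fun t (x : EE (2 * m)) => ∑ s : Equiv.Perm (Fin (2 * m + 1)),
      ∑ p : Equiv.Perm (Fin (2 * m + 1)), (((Equiv.Perm.sign s : ℤ) * (Equiv.Perm.sign p : ℤ) : ℤ) : ℝ) *
        (nfc (A t) (s 0) x * nfc (A t) (p 0) x *
          ∏ j : Fin m, Rf (A t) (θ t) (s (pe j)) (s (po j)) (p (pe j)) (p (po j)) x) := by
    funext t x
    unfold pff pft alt
    refine sum_congr rfl fun s _ => sum_congr rfl fun p _ => ?_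
    rw [zsmul_eq_mul]
    rfl
  rw [h]
  exact Cl.sum _ _ fun s _ => Cl.sum _ _ fun p _ => Cl.mul _ _ (Cl.const _)
    (Cl.mul _ _ (Cl.mul _ _ (cl_nfc _) (cl_nfc _)) (cl_prod _ _ fun j _ => cl_Rf _ _ _ _))

/-- the density is a `C¹` family -/
theorem sm1 (hFHM : FhmStmt) (h2 : Goal_C2) (h6 : Goal_C6) (h8 : Goal_C8) (h9 : Goal_C9) {m : ℕ} {I : Set ℝ}
    {A θ : ℝ → MF (2 * m)} (hF : FFlow I A θ) :
    ∃ f' : ℝ → EE (2 * m) → ℝ, SmFam1 I (fun t x => pff (A t) (θ t) x * Real.sqrt (gOf (θ t) x).det) f' := by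
  obtain ⟨p', -, hp⟩ := cl_der h8 h2 h9 hF _ (cl_pff (I := I) (A := A) (θ := θ))
  obtain ⟨d', -, hd⟩ := cl_der h8 h2 h9 hF _ (cl_det (I := I) (A := A) (θ := θ))
  obtain ⟨-, -, -, c4, -, -, c7, -⟩ := h9 (2 * m) I
  have hpos : ∀ t ∈ I, ∀ x : EE (2 * m), x ≠ 0 → (gOf (θ t) x).det ∈ Set.Ioi (0 : ℝ) := fun t ht x _ =>
    (h6 _ _ (((hFHM _).1 _ _ (((hFHM _).2 I A θ hF).1 t ht)).1)).1 x
  have hs := c7 _ _ Real.sqrt (fun y => 1 / (2 * Real.sqrt y)) (Set.Ioi 0) isOpen_Ioi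
    (fun y hy => (Real.contDiffAt_sqrt (Set.mem_Ioi.mp hy).ne').contDiffWithinAt)
    (fun y hy => Real.hasDerivAt_sqrt (Set.mem_Ioi.mp hy).ne') hd hpos
  exact ⟨_, c4 _ _ _ _ hp hs⟩

/-- differentiation of the integral of a `C¹` family -/
theorem hasDeriv_integ (h4 : Goal_C4) {T : ℝ} (f f' : ℝ → EE n → ℝ) (hf : SmFam1 (Set.Ico 0 T) f f')
    (t : ℝ) (h0 : 0 < t) (hT : t < T) : HasDerivAt (fun r => integ (f r)) (integ (f' t)) t := by
  obtain ⟨-, hint, -⟩ := h4 n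
  obtain ⟨t1, ht1⟩ : ∃ t1, t1 = t / 2 := ⟨_, rfl⟩
  obtain ⟨t2, ht2⟩ : ∃ t2, t2 = (t + T) / 2 := ⟨_, rfl⟩
  have e1 : 0 < t1 := by rw [ht1]; linarith
  have e2 : t1 < t := by rw [ht1]; linarith
  have e3 : t < t2 := by rw [ht2]; linarith
  have e4 : t2 < T := by rw [ht2]; linarith
  have hK : IsCompact (Set.Icc t1 t2 ×ˢ Metric.sphere (0 : EE n) 1) := isCompact_Icc.prod (isCompact_sphere _ _)
  have hsub : Set.Icc t1 t2 ×ˢ Metric.sphere (0 : EE n) 1 ⊆ Set.Ico 0 T ×ˢ {0}ᶜ := by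
    rintro ⟨s, x⟩ ⟨hs, hx⟩
    simp only [Set.mem_Icc] at hs
    refine ⟨⟨by linarith [hs.1], by linarith [hs.2]⟩, ?_⟩
    rintro rfl
    simp at hx
  obtain ⟨C, hC⟩ := hK.exists_bound_of_continuousOn ((hf.fam'.cont []).mono hsub)
  have hbd : ∀ s, t1 ≤ s → s ≤ t2 → ∀ x : EE n, x ≠ 0 → |f' s x| ≤ C := by
    intro s hs1 hs2 x hx
    have hx' : 0 < ‖x‖ := norm_pos_iff.mpr hx
    have h1 := (hf.fam'.sm s ⟨by linarith, by linarith⟩).hom (‖x‖⁻¹) x (inv_pos.mpr hx')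
    rw [← h1]
    have := hC (s, ‖x‖⁻¹ • x) ⟨⟨hs1, hs2⟩, by
      rw [mem_sphere_zero_iff_norm, norm_smul, norm_inv, norm_norm, inv_mul_cancel₀ hx'.ne']⟩
    exact this
  have hne : ∀ᵐ x ∂(MeasureTheory.volume.restrict (Metric.ball (0 : EE n) 1)), x ≠ 0 := by
    apply MeasureTheory.ae_restrict_of_ae
    rw [MeasureTheory.ae_iff]
    simp
  have main := (hasDerivAt_integral_of_dominated_loc_of_deriv_le (μ := MeasureTheory.volume.restrict (Metric.ball (0 : EE n) 1))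
    (F := f) (F' := f') (x₀ := t) (s := Set.Ioo t1 t2) (bound := fun _ => C) (Ioo_mem_nhds e2 e3)
    (by
      filter_upwards [Ioo_mem_nhds e2 e3] with s hs
      exact (hint (f s) (hf.fam.sm s ⟨by linarith [hs.1], by linarith [hs.2]⟩)).aestronglyMeasurable)
    (hint (f t) (hf.fam.sm t ⟨h0.le, hT⟩))
    (hint (f' t) (hf.fam'.sm t ⟨h0.le, hT⟩)).aestronglyMeasurable
    (by
      filter_upwards [hne] with x hx s hs
      exact hbd s hs.1.le hs.2.le x hx)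
    (MeasureTheory.integrableOn_const (μ := MeasureTheory.volume) MeasureTheory.measure_ball_lt_top.ne)
    (by
      filter_upwards [hne] with x hx s hs
      have hs0 : 0 < s := by linarith [hs.1]
      have hsT : s < T := by linarith [hs.2]
      exact (hf.der [] x hx s ⟨hs0.le, hsT⟩).hasDerivAt (Ico_mem_nhds hs0 hsT))).2
  unfold integ
  exact main.const_mul _

theorem integ_congr {f g : EE n → ℝ} (h : ∀ x, x ≠ 0 → f x = g x) : integ f = integ g := by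
  unfold integ
  congr 1
  apply MeasureTheory.setIntegral_congr_ae measurableSet_ball
  have : ∀ᵐ x ∂(MeasureTheory.volume : MeasureTheory.Measure (EE n)), x ≠ 0 := by
    rw [MeasureTheory.ae_iff]
    simp
  filter_upwards [this] with x hx _
  exact h x hx

end Pool.Agent.Helper47.FLG.GINaux

namespace Pool.Agent.Helper47.FLG

open Finset Pool.Agent.Helper47.RFn Pool.Agent.Helper73.RFn GINaux

theorem p_GIN (hGDT : G_GDT) (hGDV : G_GDV) (hDET : Pool.Agent.Helper64.RFn.DETn2) (hFHM : FhmStmt)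
    (h2 : Goal_C2) (h4 : Goal_C4) (h6 : Goal_C6) (h8 : Goal_C8) (h9 : Goal_C9) : G_GIN := by
  intro m hm T A θ hT hF t t' ht0 htT ht0' htT'
  obtain ⟨f', hf'⟩ := sm1 hFHM h2 h6 h8 h9 hF
  have hn : 1 ≤ 2 * m := by omega
  have hzero : ∀ s, 0 < s → s < T → integ (f' s) = 0 := by
    intro s hs0 hsT
    obtain ⟨w, hw, hder⟩ := hGDT m hm T A θ hT hF s hs0 hsT
    have hFr := ((hFHM _).2 _ A θ hF).1 s ⟨hs0.le, hsT⟩
    rw [← hGDV (2 * m) hn (A s) (θ s) hFr w hw]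
    apply integ_congr
    intro x hx
    have d1 := hder x hx
    obtain ⟨hpos, d2⟩ := hDET (2 * m) _ A θ hn hF s ⟨hs0.le, hsT⟩ x hx
    have d2' := d2.hasDerivAt (Ico_mem_nhds hs0 hsT)
    have d3 := (hf'.der [] x hx s ⟨hs0.le, hsT⟩).hasDerivAt (Ico_mem_nhds hs0 hsT)
    have d4 := d3.unique (d1.mul d2')
    have e : Ew [] (f' s) x = f' s x := rfl
    rw [e] at d4
    rw [d4]
    have hlam : ∑ a, Rcf (A s) (θ s) a a x = ((2 * m : ℕ) : ℝ) * lamf (A s) (θ s) x := by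
      unfold lamf
      have : ((2 * m : ℕ) : ℝ) ≠ 0 := by
        have : (2 * m : ℕ) ≠ 0 := by omega
        exact_mod_cast this
      field_simp
    rw [hlam]
    ring
  have hder : ∀ s ∈ Set.Ioo (0 : ℝ) T, HasDerivWithinAt
      (fun r => integ (fun x => pff (A r) (θ r) x * Real.sqrt (gOf (θ r) x).det)) 0 (Set.Ioo 0 T) s := by
    intro s hs
    have := hasDeriv_integ h4 _ f' hf' s hs.1 hs.2
    rw [hzero s hs.1 hs.2] at this
    exact this.hasDerivWithinAt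
  have := (convex_Ioo (0 : ℝ) T).norm_image_sub_le_of_norm_hasDerivWithin_le (C := 0) hder
    (fun s _ => by simp) (⟨ht0, htT⟩ : t ∈ Set.Ioo (0 : ℝ) T) (⟨ht0', htT'⟩ : t' ∈ Set.Ioo (0 : ℝ) T)
  rw [zero_mul] at this
  have := norm_le_zero_iff.mp this
  exact (sub_eq_zero.mp this).symm

end Pool.Agent.Helper47.FLG
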